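import Mathlib
import Pool.Agent.Y201.C3.Stm
import Pool.Agent.Y201.VL.Param
import Pool.Agent.TH314.PD.Restr

/-!
# Job 1502 (C3-LINE): very general cubic fourfolds have no family of lines of odd degree
-/

set_option autoImplicit false

namespace Pool.Agent.Y960.C3

open MvPolynomial Pool.Agent.TH314.PD Pool.Agent.Y201.C3 Pool.Agent.Y201.VL

section aux

variable {M : Type} [Field M] [Algebra ℂ M]

lemma ratio_eq {m : ℕ} (x : Fin m → M) (j : Fin m) (hj : x j ≠ 0) :
    IntermediateField.adjoin ℂ (Set.range fun i => x i / x j) = ratioField x := by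
  apply le_antisymm
  · rw [IntermediateField.adjoin_le_iff]
    rintro _ ⟨i, rfl⟩
    exact IntermediateField.subset_adjoin _ _ ⟨i, j, rfl⟩
  · unfold ratioField
    rw [IntermediateField.adjoin_le_iff]
    rintro _ ⟨a, b, rfl⟩
    have h : x a / x b = (x a / x j) / (x b / x j) := by
      rw [div_div_div_cancel_right₀ hj]
    rw [SetLike.mem_coe, h]
    exact div_mem (IntermediateField.subset_adjoin _ _ ⟨a, rfl⟩)
      (IntermediateField.subset_adjoin _ _ ⟨b, rfl⟩)

open scoped IntermediateField.algebraAdjoinAdjoin in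
/-- independent coordinates -/
lemma exists_zeta (htr : Algebra.trdeg ℂ M = 4) (x : Fin 6 → M) (j : Fin 6) (hj : x j ≠ 0)
    (hfin : FiniteDimensional (ratioField x) M) :
    ∃ ζ : Fin 4 → Fin 6, AlgebraicIndependent ℂ (fun l => x (ζ l) / x j) := by
  classical
  set s : Set M := Set.range fun i => x i / x j with hs
  have h1 : Algebra.IsAlgebraic (IntermediateField.adjoin ℂ s) M := by
    rw [hs, ratio_eq x j hj]
    infer_instance
  have h2 : Algebra.IsAlgebraic (Algebra.adjoin ℂ s) (IntermediateField.adjoin ℂ s) :=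
    IsLocalization.isAlgebraic _ (nonZeroDivisors (Algebra.adjoin ℂ s))
  have h3 : Algebra.IsAlgebraic (Algebra.adjoin ℂ s) M :=
    Algebra.IsAlgebraic.trans (Algebra.adjoin ℂ s) (IntermediateField.adjoin ℂ s) M
  obtain ⟨B, hB, hBt⟩ := exists_isTranscendenceBasis_subset (R := ℂ) s
  have h4 : Cardinal.mk B = Cardinal.mk (Fin 4) := by
    rw [hBt.cardinalMk_eq_trdeg, htr, Cardinal.mk_fin]
    rfl
  obtain ⟨e⟩ := Cardinal.eq.1 h4
  choose idx hidx using fun b : B => hB b.2
  refine ⟨fun l => idx (e.symm l), ?_⟩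
  have h5 := hBt.1.comp e.symm e.symm.injective
  have h6 : (fun l => x (idx (e.symm l)) / x j) = (fun b : B => (b : M)) ∘ e.symm := by
    funext l
    exact hidx (e.symm l)
  rw [h6]
  exact h5

/-- a form with vanishing dehomogenization is zero -/
lemma form_zero {n : ℕ} (l : ℕ) (A : MvPolynomial (Fin (n + 1)) ℂ) (hA : A.IsHomogeneous l)
    (h : ∀ y : Fin n → ℂ, aeval (Fin.cons 1 y : Fin (n + 1) → ℂ) A = 0) : A = 0 := by
  have h1 : X 0 * A = 0 := by
    apply MvPolynomial.funext
    intro a
    rw [map_mul, map_zero, eval_X]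
    by_cases h0 : a 0 = 0
    · rw [h0, zero_mul]
    · have h2 : a = fun i => a 0 * (Fin.cons 1 (fun l => a l.succ / a 0) : Fin (n + 1) → ℂ) i := by
        funext i
        refine Fin.cases ?_ (fun l => ?_) i
        · rw [Fin.cons_zero, mul_one]
        · rw [Fin.cons_succ]
          field_simp
      have h3 : eval a A = aeval a A := by
        rw [aeval_def, eval, coe_eval₂Hom]
        rfl
      rw [h3, h2, hom_smul hA, h, mul_zero, mul_zero]
  rcases mul_eq_zero.1 h1 with h2 | h2
  · exact absurd h2 (X_ne_zero _)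
  · exact h2

/-- no form vanishes at algebraically independent coordinates -/
lemma no_form {n : ℕ} (y : Fin n → M) (hy : AlgebraicIndependent ℂ y) (c : M) (hc : c ≠ 0)
    (l : ℕ) (A : MvPolynomial (Fin (n + 1)) ℂ) (hA : A.IsHomogeneous l)
    (h : aeval (fun i => c * (Fin.cons 1 y : Fin (n + 1) → M) i) A = 0) : A = 0 := by
  rw [hom_smul hA] at h
  have h1 := (mul_eq_zero.1 h).resolve_left (pow_ne_zero _ hc)
  have hcomp : ∀ {R : Type} [CommRing R] [Algebra ℂ R] (z : Fin n → R),
      aeval (Fin.cons 1 z : Fin (n + 1) → R) A =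
        aeval z (aeval (Fin.cons 1 X : Fin (n + 1) → MvPolynomial (Fin n) ℂ) A) := by
    intro R _ _ z
    rw [comp_aeval_apply]
    congr 2
    funext i
    refine Fin.cases ?_ (fun l => ?_) i
    · rw [Fin.cons_zero, Fin.cons_zero, map_one]
    · rw [Fin.cons_succ, Fin.cons_succ, aeval_X]
  rw [hcomp] at h1
  have h2 := (algebraicIndependent_iff.1 hy) _ h1
  apply form_zero l A hA
  intro z
  rw [hcomp, h2, map_zero]

/-- the line in the cubic -/
lemma line_zero (F : MvPolynomial (Fin 6) ℂ) (L : IntermediateField ℂ M)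
    (t : M) (ht : Transcendental L t) (u w : Fin 6 → M) (hu : ∀ i, u i ∈ L) (hw : ∀ i, w i ∈ L)
    (h0 : aeval (fun i => t * u i + w i) F = 0) (τ : M) :
    aeval (fun i => τ * u i + w i) F = 0 := by
  let g : Fin 6 → Polynomial L := fun i =>
    Polynomial.X * Polynomial.C (⟨u i, hu i⟩ : L) + Polynomial.C (⟨w i, hw i⟩ : L)
  have h1 : ∀ σ : M, Polynomial.aeval σ (aeval g F) = aeval (fun i => σ * u i + w i) F := by
    intro σ
    have h2 : Polynomial.aeval σ (aeval g F) =
        ((Polynomial.aeval σ : Polynomial L →ₐ[L] M).restrictScalars ℂ) (aeval g F) := rfl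
    rw [h2, comp_aeval_apply]
    congr 2
    funext i
    simp only [AlgHom.coe_restrictScalars', g, map_add, map_mul, Polynomial.aeval_X,
      Polynomial.aeval_C]
    rfl
  have h2 : aeval g F = 0 := transcendental_iff.1 ht _ (by rw [h1]; exact h0)
  rw [← h1, h2, map_zero]

end aux

/-- **LINE** -/
theorem line : S_LINE := by
  classical
  intro F hF hF0 hai hprime M _ _ htr L t ht u w hu hw hFx hodd
  set x : Fin 6 → M := fun i => t * u i + w i with hx
  have hfin : FiniteDimensional (ratioField x) M := FiniteDimensional.of_finrank_pos hodd.pos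
  have hnot : ¬ ratioField x ≤ L := by
    intro hle
    apply ht
    have h1 : IsAlgebraic (ratioField x) t := Algebra.IsAlgebraic.isAlgebraic t
    let _ : Algebra (ratioField x) L := (IntermediateField.inclusion hle).toRingHom.toAlgebra
    have : IsScalarTower (ratioField x) L M := IsScalarTower.of_algebraMap_eq fun _ => rfl
    exact h1.extendScalars (IntermediateField.inclusion hle).toRingHom.injective
  have hxj : ∃ j, x j ≠ 0 := by
    by_contra hcon
    push Not at hcon
    apply hnot
    unfold ratioField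
    rw [IntermediateField.adjoin_le_iff]
    rintro _ ⟨a, b, rfl⟩
    rw [hcon a, zero_div]
    exact zero_mem _
  obtain ⟨j, hj⟩ := hxj
  obtain ⟨ζ, hζ⟩ := exists_zeta htr x j hj hfin
  have hker : ∀ (e : ℕ) (H : MvPolynomial (Fin 6) ℂ), H.IsHomogeneous e → aeval x H = 0 →
      F ∣ H := by
    intro e H hH h0
    refine dom_of_indep (n := 4) hF (by norm_num) hF0 hprime (aeval x)
      (Fin.cons j ζ : Fin 5 → Fin 6) hFx ?_ hH h0
    intro l A hA hA0
    rw [aeval_rename] at hA0
    refine no_form (fun l => x (ζ l) / x j) hζ (x j) hj l A hA ?_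
    rw [← hA0]
    congr 2
    funext i
    refine Fin.cases ?_ (fun l => ?_) i
    · rw [Fin.cons_zero, mul_one]
      rfl
    · rw [Fin.cons_succ]
      change x j * (x (ζ l) / x j) = x (ζ l)
      field_simp
  have hx0 : x 0 ≠ 0 := by
    intro h0
    obtain ⟨B, hB⟩ := hker 1 (X 0) (isHomogeneous_X _ _) (by rw [aeval_X, h0])
    have hB0 : B ≠ 0 := by
      rintro rfl
      rw [mul_zero] at hB
      exact X_ne_zero _ hB
    have h1 := totalDegree_mul_of_isDomain hF0 hB0
    rw [← hB, totalDegree_X, hF.totalDegree hF0] at h1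
    omega
  set y : Fin 5 → M := fun k => x k.succ / x 0 with hy
  have hxy : x = fun i => x 0 * (Fin.cases (motive := fun _ => M) 1 y : Fin 6 → M) i := by
    funext i
    refine Fin.cases ?_ (fun l => ?_) i
    · exact (mul_one _).symm
    · change x l.succ = x 0 * (x l.succ / x 0)
      field_simp
  have hyF : aeval y (dh ℂ 4 F) = 0 := by
    have h1 := hFx
    rw [hxy, hom_smul hF] at h1
    rw [dh_aeval]
    exact (mul_eq_zero.1 h1).resolve_left (pow_ne_zero _ hx0)
  let ψ : (MvPolynomial (Fin 5) ℂ ⧸ Ideal.span {dh ℂ 4 F}) →ₐ[ℂ] M :=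
    Ideal.Quotient.liftₐ (Ideal.span {dh ℂ 4 F}) (aeval y) (by
      intro a ha
      rw [Ideal.mem_span_singleton] at ha
      obtain ⟨b, rfl⟩ := ha
      rw [map_mul, hyF, zero_mul])
  have hψ : ∀ p : MvPolynomial (Fin 5) ℂ, ψ (Ideal.Quotient.mk _ p) = aeval y p := fun p => rfl
  have hψinj : Function.Injective ψ := by
    rw [injective_iff_map_eq_zero]
    intro q hq
    obtain ⟨p, rfl⟩ := Ideal.Quotient.mk_surjective q
    rw [hψ] at hq
    rw [Ideal.Quotient.eq_zero_iff_mem, Ideal.mem_span_singleton]
    obtain ⟨A', hA'h, hA'⟩ := homogenize p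
    have h1 : aeval x A' = 0 := by
      rw [hxy, hom_smul hA'h]
      have h2 := hA' y
      have h3 : (Fin.cons 1 y : Fin 6 → M) = (Fin.cases (motive := fun _ => M) 1 y) := rfl
      rw [← h3, h2, hq, mul_zero]
    obtain ⟨B, hB⟩ := hker _ A' hA'h h1
    refine ⟨dh ℂ 4 B, ?_⟩
    rw [← map_mul, ← hB]
    have h4 := hA' (X : Fin 5 → MvPolynomial (Fin 5) ℂ)
    rw [aeval_X_left_apply] at h4
    exact h4.symm
  have hψr : IntermediateField.adjoin ℂ (Set.range ψ) = ratioField x := by
    apply le_antisymm
    · rw [IntermediateField.adjoin_le_iff]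
      rintro _ ⟨q, rfl⟩
      obtain ⟨p, rfl⟩ := Ideal.Quotient.mk_surjective q
      rw [hψ, SetLike.mem_coe]
      induction p using MvPolynomial.induction_on with
      | C a =>
        rw [aeval_C]
        exact (ratioField x).algebraMap_mem a
      | add f g hf hg =>
        rw [map_add]
        exact add_mem hf hg
      | mul_X f i hf =>
        rw [map_mul, aeval_X]
        exact mul_mem hf (IntermediateField.subset_adjoin _ _ ⟨i.succ, 0, rfl⟩)
    · rw [← ratio_eq x 0 hx0, IntermediateField.adjoin_le_iff]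
      rintro _ ⟨i, rfl⟩
      rw [SetLike.mem_coe]
      refine Fin.cases ?_ (fun l => ?_) i
      · simp only [div_self hx0]
        exact one_mem _
      · apply IntermediateField.subset_adjoin
        exact ⟨Ideal.Quotient.mk _ (X l), by rw [hψ, aeval_X]⟩
  set v : Fin 5 → M := fun k => u k.succ - u 0 * y k with hv
  have hv0 : v ≠ 0 := by
    intro h0
    have h1 : ∀ k, u k.succ = u 0 * y k := fun k => sub_eq_zero.1 (congrFun h0 k)
    apply hnot
    by_cases hu0 : u 0 = 0
    · have h2 : ∀ i, u i = 0 := by
        intro i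
        refine Fin.cases hu0 (fun l => ?_) i
        rw [h1, hu0, zero_mul]
      unfold ratioField
      rw [IntermediateField.adjoin_le_iff]
      rintro _ ⟨a, b, rfl⟩
      have h3 : ∀ i, x i = w i := by
        intro i
        rw [hx]
        simp only
        rw [h2, mul_zero, zero_add]
      rw [h3, h3, SetLike.mem_coe]
      exact div_mem (hw a) (hw b)
    · rw [← ratio_eq x 0 hx0, IntermediateField.adjoin_le_iff]
      rintro _ ⟨i, rfl⟩
      rw [SetLike.mem_coe]
      refine Fin.cases ?_ (fun l => ?_) i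
      · simp only [div_self hx0]
        exact one_mem _
      · have h2 : x l.succ / x 0 = u l.succ / u 0 := by
          rw [h1, mul_div_cancel_left₀ _ hu0]
        simp only [h2]
        exact div_mem (hu _) (hu _)
  have hres : res y v (dh ℂ 4 F) = 0 := by
    apply Polynomial.eq_zero_of_infinite_isRoot
    have hinf : Infinite M :=
      Infinite.of_injective (algebraMap ℂ M) (algebraMap ℂ M).injective
    have h1 : {s : M | s * u 0 ≠ 1}.Infinite := by
      have h2 : {s : M | s * u 0 ≠ 1} = {s : M | s * u 0 = 1}ᶜ := rfl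
      rw [h2]
      apply Set.Finite.infinite_compl
      apply Set.Subsingleton.finite
      intro a ha b hb
      have ha' : a * u 0 = 1 := ha
      have hb' : b * u 0 = 1 := hb
      have hu0 : u 0 ≠ 0 := by
        intro h3
        rw [h3, mul_zero] at ha'
        exact zero_ne_one ha'
      exact mul_right_cancel₀ hu0 (ha'.trans hb'.symm)
    refine h1.mono ?_
    intro s hs
    change (res y v (dh ℂ 4 F)).eval s = 0
    rw [eval_res, dh_aeval]
    have hb : (1 - s * u 0) / x 0 ≠ 0 := div_ne_zero (sub_ne_zero.2 (Ne.symm hs)) hx0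
    set b : M := (1 - s * u 0) / x 0 with hbdef
    have h3 : (Fin.cases (motive := fun _ => M) 1 (fun k => y k + v k * s) : Fin 6 → M) =
        fun i => b * (((b * t + s) / b) * u i + w i) := by
      have h4 : ∀ i, b * (((b * t + s) / b) * u i + w i) = b * x i + s * u i := by
        intro i
        have h5 : b * (((b * t + s) / b) * u i + w i) =
            (b * ((b * t + s) / b)) * u i + b * w i := by ring
        rw [h5, mul_div_cancel₀ _ hb, hx]
        ring
      funext i
      rw [h4]
      have h5 : b * x 0 = 1 - s * u 0 := by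
        rw [hbdef, div_mul_cancel₀ _ hx0]
      refine Fin.cases ?_ (fun l => ?_) i
      · change 1 = b * x 0 + s * u 0
        rw [h5]
        ring
      · change y l + v l * s = b * x l.succ + s * u l.succ
        have h6 : x l.succ = x 0 * y l := by
          rw [hy]
          simp only
          field_simp
        rw [h6, hv]
        simp only
        linear_combination (-(y l)) * h5
    rw [h3, hom_smul hF, line_zero F L t ht u w hu hw hFx, mul_zero]
  exact no_contact _ (geo (by norm_num) F hF hai) (geo_last (by norm_num) F hF hai) ψ hψinj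
    (by rw [hψr]; exact hodd) v hv0 (by
      have h1 : (fun j => ψ (Ideal.Quotient.mk _ (X j))) = y := by
        funext k
        rw [hψ, aeval_X]
      rw [h1, hres]
      exact dvd_zero _)

end Pool.Agent.Y960.C3
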